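import Mathlib

namespace Pool.Agent.Results.MP_1f0dde_co.AperiodicRuleset

/-- `PPos S x y`: the position `(x, y)` has outcome `𝒫` (the player to move loses) in the
subtraction game with ruleset `S`: no legal move `s ∈ S` leads to a position with outcome `𝒫`. -/
def PPos (S : Finset (ℕ × ℕ)) (x y : ℕ) : Prop :=
  ∀ s ∈ S, (h0 : s ≠ (0, 0)) → (h1 : s.1 ≤ x) → (h2 : s.2 ≤ y) → ¬ PPos S (x - s.1) (y - s.2)
termination_by x + y
decreasing_by
  have : s.1 ≠ 0 ∨ s.2 ≠ 0 := by
    by_contra h
    push Not at h
    exact h0 (Prod.ext h.1 h.2)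
  omega

/-- The value `f(x) = p x / q + m`. -/
def lineVal (p q : ℕ) (m : ℚ) (x : ℤ) : ℚ := p * x / q + m

/-- The outcomes on the line `y = p x / q + m` are eventually periodic: for some `T > 0` and `x₀`,
`f(x+T)` is an integer whenever `f(x)` is, and the outcomes at the lattice points `(x, f(x))` and
`(x+T, f(x+T))` of the board agree for `x ≥ x₀`. -/
def LinePeriodic (S : Finset (ℕ × ℕ)) (p q : ℕ) (m : ℚ) : Prop :=
  ∃ T x₀ : ℕ, 0 < T ∧
    (∀ x : ℤ, (∃ k : ℤ, lineVal p q m x = k) → ∃ k : ℤ, lineVal p q m (x + T) = k) ∧
    ∀ x y y' : ℕ, x₀ ≤ x → lineVal p q m x = y → lineVal p q m (x + T) = y' →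
      (PPos S x y ↔ PPos S (x + T) y')

/-- The ruleset `S` is eventually periodic: the outcomes are eventually periodic on every line of
positive rational slope and rational intercept that contains infinitely many lattice points. -/
def EventuallyPeriodic (S : Finset (ℕ × ℕ)) : Prop :=
  ∀ p q : ℕ, 0 < p → 0 < q → ∀ m : ℚ,
    {z : ℤ × ℤ | lineVal p q m z.1 = z.2}.Infinite → LinePeriodic S p q m

/-! ### The ruleset -/

/-- The moves. -/
def L0 : List (ℕ × ℕ) :=
  [(2, 0), (4, 0), (6, 0), (8, 0), (11, 0), (15, 0), (17, 0), (19, 0), (21, 0), (22, 0), (24, 0),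
   (29, 0), (30, 0), (31, 0), (36, 0), (37, 0), (38, 0), (39, 0), (42, 0), (45, 0), (49, 0),
   (52, 0), (54, 0), (55, 0), (58, 0), (37, 1), (41, 1)]

/-- The ruleset. -/
def S0 : Finset (ℕ × ℕ) := L0.toFinset

/-- Residues of permanent `𝒫`-positions. -/
def OL : List ℕ := [0, 1, 13, 26]

/-- Residues of permanent `𝒫`-positions and of data cells. -/
def NZ : List ℕ := [0, 1, 13, 26, 10, 27, 14, 33]

theorem L0_pos : ∀ s ∈ L0, 0 < s.1 ∧ s.1 < 60 ∧ s ≠ (0, 0) := by decide

theorem L0_O : ∀ s ∈ L0, ∀ i ∈ OL, (i + 60 - s.1) % 60 ∉ NZ := by decide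

theorem L0_Z : ∀ i ∈ List.range 60, i ∉ NZ → ∃ s ∈ L0, s.2 = 0 ∧ s.1 ≤ i ∧ (i - s.1) ∈ OL := by
  decide

theorem L0_10 : ∀ s ∈ L0, s ∉ [(37, 0), (37, 1)] → (10 + 60 - s.1) % 60 ∉ NZ := by decide

theorem L0_27 : ∀ s ∈ L0, s ∉ [(54, 0), (17, 0)] → (27 + 60 - s.1) % 60 ∉ NZ := by decide

theorem L0_14 : ∀ s ∈ L0, s ∉ [(41, 1), (4, 0)] → (14 + 60 - s.1) % 60 ∉ NZ := by decide

theorem L0_33 : ∀ s ∈ L0, s ∉ [(6, 0), (19, 0)] → (33 + 60 - s.1) % 60 ∉ NZ := by decide

theorem mem_S0 {s : ℕ × ℕ} : s ∈ S0 ↔ s ∈ L0 := by
  unfold S0
  exact List.mem_toFinset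

theorem PPos_iff (x y : ℕ) :
    PPos S0 x y ↔ ∀ s ∈ L0, s.1 ≤ x → s.2 ≤ y → ¬ PPos S0 (x - s.1) (y - s.2) := by
  rw [PPos]
  constructor
  · intro h s hs h1 h2
    exact h s (mem_S0.2 hs) (L0_pos s hs).2.2 h1 h2
  · intro h s hs _ h1 h2
    exact h s (mem_S0.1 hs) h1 h2

/-- The predicted outcome at `(60 X + i, y)`. -/
def G (i X y : ℕ) : Prop :=
  i ∈ OL ∨
  (i = 10 ∧ ¬ (0 < X ∧ Even ((X - 1).choose (y + 1))) ∧ ¬ (0 < X ∧ Even ((X - 1).choose y))) ∨
  (i = 27 ∧ ¬ (0 < X ∧ Even ((X - 1).choose (y + 1))) ∧ (0 < X ∧ Even ((X - 1).choose y))) ∨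
  (i = 14 ∧ (0 < X ∧ Even ((X - 1).choose (y + 1))) ∧ ¬ (0 < X ∧ Even ((X - 1).choose y))) ∨
  (i = 33 ∧ Even (X.choose (y + 1)))

theorem G_Z {i X y : ℕ} (h : i ∉ NZ) : ¬ G i X y := by
  unfold NZ at h
  simp only [List.mem_cons, List.not_mem_nil, or_false, not_or] at h
  unfold G OL
  simp only [List.mem_cons, List.not_mem_nil, or_false]
  omega

theorem G_O {i X y : ℕ} (h : i ∈ OL) : G i X y := Or.inl h

theorem G_10 {X y : ℕ} : G 10 X y ↔ ¬ (0 < X ∧ Even ((X - 1).choose (y + 1))) ∧
    ¬ (0 < X ∧ Even ((X - 1).choose y)) := by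
  simp [G, OL]

theorem G_27 {X y : ℕ} : G 27 X y ↔ ¬ (0 < X ∧ Even ((X - 1).choose (y + 1))) ∧
    (0 < X ∧ Even ((X - 1).choose y)) := by
  simp [G, OL]

theorem G_14 {X y : ℕ} : G 14 X y ↔ (0 < X ∧ Even ((X - 1).choose (y + 1))) ∧
    ¬ (0 < X ∧ Even ((X - 1).choose y)) := by
  simp [G, OL]

theorem G_33 {X y : ℕ} : G 33 X y ↔ Even (X.choose (y + 1)) := by
  simp [G, OL]

theorem pascal (X y : ℕ) : Even (X.choose (y + 1)) ↔
    ((0 < X ∧ Even ((X - 1).choose (y + 1))) ↔ (0 < X ∧ Even ((X - 1).choose y))) := by
  rcases Nat.eq_zero_or_pos X with h | h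
  · subst h
    simp
  · obtain ⟨Z, rfl⟩ : ∃ Z, X = Z + 1 := ⟨X - 1, by omega⟩
    rw [Nat.choose_succ_succ, Nat.even_add, Nat.add_sub_cancel]
    have h0 : 0 < Z + 1 := Nat.succ_pos Z
    simp only [h0, true_and]
    tauto

theorem target {x s : ℕ} (h1 : s ≤ x) (h2 : s < 60) :
    (x - s) % 60 = (x % 60 + 60 - s) % 60 := by omega

theorem main (x : ℕ) : ∀ y, PPos S0 x y ↔ G (x % 60) (x / 60) y := by
  induction x using Nat.strong_induction_on with
  | _ x ih =>
    intro y
    have hstep : ∀ s ∈ L0, s.1 ≤ x → ∀ y', PPos S0 (x - s.1) y' ↔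
        G ((x - s.1) % 60) ((x - s.1) / 60) y' := by
      intro s hs h1 y'
      have h2 := L0_pos s hs
      exact ih (x - s.1) (by omega) y'
    have hZ : ∀ s ∈ L0, s.1 ≤ x → (x % 60 + 60 - s.1) % 60 ∉ NZ → ∀ y',
        ¬ PPos S0 (x - s.1) y' := by
      intro s hs h1 h2 y'
      rw [hstep s hs h1 y', target h1 (L0_pos s hs).2.1]
      exact G_Z h2
    -- reading a data cell
    have hread : ∀ s ∈ L0, ∀ r Xr y', x = 60 * Xr + r + s.1 → r < 60 →
        (PPos S0 (x - s.1) y' ↔ G r Xr y') := by
      intro s hs r Xr y' hx hr
      rw [hstep s hs (by omega) y']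
      have e1 : (x - s.1) % 60 = r := by omega
      have e2 : (x - s.1) / 60 = Xr := by omega
      rw [e1, e2]
    have hxi : x = 60 * (x / 60) + x % 60 := by omega
    have hlt : x % 60 < 60 := Nat.mod_lt _ (by norm_num)
    generalize hX : x / 60 = X at *
    generalize hi : x % 60 = i at *
    by_cases hNZ : i ∈ NZ
    · unfold NZ at hNZ
      simp only [List.mem_cons, List.not_mem_nil, or_false] at hNZ
      by_cases hO : i ∈ OL
      · rw [PPos_iff]
        constructor
        · intro _
          exact G_O hO
        · intro _ s hs h1 _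
          exact hZ s hs h1 (L0_O s hs i hO) _
      · have hdata : i = 10 ∨ i = 27 ∨ i = 14 ∨ i = 33 := by
          unfold OL at hO
          simp only [List.mem_cons, List.not_mem_nil, or_false, not_or] at hO
          omega
        rcases hdata with rfl | rfl | rfl | rfl
        · -- residue 10
          rw [PPos_iff, G_10]
          constructor
          · intro h
            constructor
            · rintro ⟨h0, h1⟩
              refine h (37, 0) (by decide) (by simp only; omega) (by simp) ?_
              rw [hread (37, 0) (by decide) 33 (X - 1) _ (by simp only; omega) (by norm_num), G_33]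
              exact h1
            · rintro ⟨h0, h1⟩
              have hy : 0 < y := by
                by_contra hcon
                have : y = 0 := by omega
                rw [this] at h1
                simp at h1
              refine h (37, 1) (by decide) (by simp only; omega) (by simp only; omega) ?_
              rw [hread (37, 1) (by decide) 33 (X - 1) _ (by simp only; omega) (by norm_num), G_33]
              have e : y - 1 + 1 = y := by omega
              simp only [e]
              exact h1
          · rintro ⟨ha, hb⟩ s hs h1 h2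
            by_cases hw : s ∈ [(37, 0), (37, 1)]
            · simp only [List.mem_cons, List.not_mem_nil, or_false] at hw
              rcases hw with rfl | rfl
              · simp only at h1 h2
                rw [hread (37, 0) (by decide) 33 (X - 1) _ (by simp only; omega) (by norm_num),
                  G_33]
                intro h3
                exact ha ⟨by omega, h3⟩
              · simp only at h1 h2
                rw [hread (37, 1) (by decide) 33 (X - 1) _ (by simp only; omega) (by norm_num),
                  G_33]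
                have e : y - 1 + 1 = y := by omega
                simp only [e]
                intro h3
                exact hb ⟨by omega, h3⟩
            · exact hZ s hs h1 (L0_10 s hs hw) _
        · -- residue 27
          rw [PPos_iff, G_27]
          have key17 : PPos S0 (x - 17) y ↔ G 10 X y :=
            hread (17, 0) (by decide) 10 X y (by simp only; omega) (by norm_num)
          constructor
          · intro h
            have h17 := h (17, 0) (by decide) (by simp only; omega) (by simp)
            simp only [Nat.sub_zero] at h17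
            rw [key17, G_10] at h17
            have h54 : ¬ (0 < X ∧ Even ((X - 1).choose (y + 1))) := by
              rintro ⟨h0, h1⟩
              refine h (54, 0) (by decide) (by simp only; omega) (by simp) ?_
              rw [hread (54, 0) (by decide) 33 (X - 1) _ (by simp only; omega) (by norm_num), G_33]
              exact h1
            tauto
          · rintro ⟨ha, hb⟩ s hs h1 h2
            by_cases hw : s ∈ [(54, 0), (17, 0)]
            · simp only [List.mem_cons, List.not_mem_nil, or_false] at hw
              rcases hw with rfl | rfl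
              · simp only at h1 h2
                rw [hread (54, 0) (by decide) 33 (X - 1) _ (by simp only; omega) (by norm_num),
                  G_33]
                intro h3
                exact ha ⟨by omega, h3⟩
              · simp only [Nat.sub_zero]
                rw [key17, G_10]
                tauto
            · exact hZ s hs h1 (L0_27 s hs hw) _
        · -- residue 14
          rw [PPos_iff, G_14]
          have key4 : PPos S0 (x - 4) y ↔ G 10 X y :=
            hread (4, 0) (by decide) 10 X y (by simp only; omega) (by norm_num)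
          constructor
          · intro h
            have h4 := h (4, 0) (by decide) (by simp only; omega) (by simp)
            simp only [Nat.sub_zero] at h4
            rw [key4, G_10] at h4
            have h41 : ¬ (0 < X ∧ Even ((X - 1).choose y)) := by
              rintro ⟨h0, h1⟩
              have hy : 0 < y := by
                by_contra hcon
                have : y = 0 := by omega
                rw [this] at h1
                simp at h1
              refine h (41, 1) (by decide) (by simp only; omega) (by simp only; omega) ?_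
              rw [hread (41, 1) (by decide) 33 (X - 1) _ (by simp only; omega) (by norm_num), G_33]
              have e : y - 1 + 1 = y := by omega
              simp only [e]
              exact h1
            tauto
          · rintro ⟨ha, hb⟩ s hs h1 h2
            by_cases hw : s ∈ [(41, 1), (4, 0)]
            · simp only [List.mem_cons, List.not_mem_nil, or_false] at hw
              rcases hw with rfl | rfl
              · simp only at h1 h2
                rw [hread (41, 1) (by decide) 33 (X - 1) _ (by simp only; omega) (by norm_num),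
                  G_33]
                have e : y - 1 + 1 = y := by omega
                simp only [e]
                intro h3
                exact hb ⟨by omega, h3⟩
              · simp only [Nat.sub_zero]
                rw [key4, G_10]
                tauto
            · exact hZ s hs h1 (L0_14 s hs hw) _
        · -- residue 33
          rw [PPos_iff, G_33, pascal]
          have key6 : PPos S0 (x - 6) y ↔ G 27 X y :=
            hread (6, 0) (by decide) 27 X y (by simp only; omega) (by norm_num)
          have key19 : PPos S0 (x - 19) y ↔ G 14 X y :=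
            hread (19, 0) (by decide) 14 X y (by simp only; omega) (by norm_num)
          constructor
          · intro h
            have h6 := h (6, 0) (by decide) (by simp only; omega) (by simp)
            have h19 := h (19, 0) (by decide) (by simp only; omega) (by simp)
            simp only [Nat.sub_zero] at h6 h19
            rw [key6, G_27] at h6
            rw [key19, G_14] at h19
            tauto
          · intro hab s hs h1 h2
            by_cases hw : s ∈ [(6, 0), (19, 0)]
            · simp only [List.mem_cons, List.not_mem_nil, or_false] at hw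
              rcases hw with rfl | rfl
              · simp only [Nat.sub_zero]
                rw [key6, G_27]
                tauto
              · simp only [Nat.sub_zero]
                rw [key19, G_14]
                tauto
            · exact hZ s hs h1 (L0_33 s hs hw) _
    · obtain ⟨s, hs, hs2, hs1, hsO⟩ := L0_Z i (List.mem_range.2 hlt) hNZ
      constructor
      · intro h
        rw [PPos_iff] at h
        exfalso
        refine h s hs (by omega) (by omega) ?_
        rw [hread s hs (i - s.1) X _ (by omega) (by omega)]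
        exact G_O hsO
      · intro h
        exact absurd h (G_Z hNZ)

/-! ### Parity of `(2t+1 choose t)` -/

theorem choose_odd_step (s : ℕ) :
    Even ((2 * (2 * s + 1) + 1).choose (2 * s + 1)) ↔ Even ((2 * s + 1).choose s) := by
  have : Fact (Nat.Prime 2) := ⟨Nat.prime_two⟩
  have h := @Choose.choose_modEq_choose_mod_mul_choose_div_nat (2 * (2 * s + 1) + 1) (2 * s + 1) 2 _
  have e1 : (2 * (2 * s + 1) + 1) % 2 = 1 := by omega
  have e2 : (2 * s + 1) % 2 = 1 := by omega
  have e3 : (2 * (2 * s + 1) + 1) / 2 = 2 * s + 1 := by omega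
  have e4 : (2 * s + 1) / 2 = s := by omega
  rw [e1, e2, e3, e4, Nat.choose_self, one_mul] at h
  rw [Nat.even_iff, Nat.even_iff]
  unfold Nat.ModEq at h
  rw [h]

theorem choose_even_step (s : ℕ) (hs : 0 < s) :
    Even ((2 * (2 * s) + 1).choose (2 * s)) := by
  have : Fact (Nat.Prime 2) := ⟨Nat.prime_two⟩
  have h := @Choose.choose_modEq_choose_mod_mul_choose_div_nat (2 * (2 * s) + 1) (2 * s) 2 _
  have e1 : (2 * (2 * s) + 1) % 2 = 1 := by omega
  have e2 : (2 * s) % 2 = 0 := by omega
  have e3 : (2 * (2 * s) + 1) / 2 = 2 * s := by omega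
  have e4 : (2 * s) / 2 = s := by omega
  rw [e1, e2, e3, e4, Nat.choose_zero_right, one_mul] at h
  have h2 : Even ((2 * s).choose s) := by
    have h3 := Nat.two_dvd_centralBinom_of_one_le hs
    rw [Nat.centralBinom_eq_two_mul_choose] at h3
    exact even_iff_two_dvd.2 h3
  rw [Nat.even_iff] at h2 ⊢
  unfold Nat.ModEq at h
  rw [h, h2]

theorem odd_pow (k : ℕ) : ¬ Even ((2 * (2 ^ k - 1) + 1).choose (2 ^ k - 1)) := by
  induction k with
  | zero => simp
  | succ k ih =>
    have e : 2 ^ (k + 1) - 1 = 2 * (2 ^ k - 1) + 1 := by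
      have : 1 ≤ 2 ^ k := Nat.one_le_two_pow
      rw [pow_succ]
      omega
    rw [e, choose_odd_step]
    exact ih

theorem pow_of_odd (t : ℕ) : ¬ Even ((2 * t + 1).choose t) → ∃ k, t + 1 = 2 ^ k := by
  induction t using Nat.strong_induction_on with
  | _ t ih =>
    intro h
    rcases Nat.eq_zero_or_pos t with h0 | h0
    · exact ⟨0, by rw [h0]; rfl⟩
    · rcases Nat.even_or_odd' t with ⟨s, hs | hs⟩
      · rw [hs] at h
        exact absurd (choose_even_step s (by omega)) h
      · rw [hs, choose_odd_step] at h
        obtain ⟨k, hk⟩ := ih s (by omega) h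
        exact ⟨k + 1, by rw [pow_succ]; omega⟩

/-- There is a finite two-dimensional ruleset that is not eventually periodic. -/
theorem result : ∃ S : Finset (ℕ × ℕ), (0, 0) ∉ S ∧ ¬ EventuallyPeriodic S := by
  refine ⟨S0, ?_, ?_⟩
  · intro h
    exact (L0_pos _ (mem_S0.1 h)).2.2 rfl
  · intro hper
    have hval : ∀ x : ℤ, lineVal 1 120 (-213 / 120) x = (x - 213) / 120 := by
      intro x
      unfold lineVal
      push_cast
      ring
    have hinf : {z : ℤ × ℤ | lineVal 1 120 (-213 / 120) z.1 = z.2}.Infinite := by
      refine Set.infinite_of_injective_forall_mem (f := fun t : ℕ => ((120 * t + 93 : ℤ), (t : ℤ) - 1))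
        ?_ ?_
      · intro a b hab
        simp only [Prod.mk.injEq] at hab
        omega
      · intro t
        rw [Set.mem_ofPred_eq, hval]
        push_cast
        ring
    obtain ⟨T, x₀, hT, hint, hout⟩ := hper 1 120 one_pos (by norm_num) (-213 / 120) hinf
    obtain ⟨k, hk⟩ := hint 93 ⟨-1, by rw [hval]; norm_num⟩
    rw [hval] at hk
    have hk' : (T : ℤ) = 120 * (k + 1) := by
      have : ((93 : ℤ) + (T : ℤ) : ℚ) - 213 = 120 * k := by
        push_cast at hk ⊢
        linarith
      have h2 : ((T : ℤ) : ℚ) = ((120 * (k + 1) : ℤ) : ℚ) := by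
        push_cast at this ⊢
        linarith
      exact_mod_cast h2
    obtain ⟨τ, hτ⟩ : ∃ τ : ℕ, T = 120 * τ := ⟨(k + 1).toNat, by omega⟩
    have hτ0 : 0 < τ := by omega
    -- outcome along the line
    have hP : ∀ t : ℕ, 0 < t → (PPos S0 (120 * t + 93) (t - 1) ↔ Even ((2 * t + 1).choose t)) := by
      intro t ht
      rw [main, show (120 * t + 93) % 60 = 33 by omega, show (120 * t + 93) / 60 = 2 * t + 1 by omega,
        G_33, show t - 1 + 1 = t by omega]
    obtain ⟨K, hK⟩ : ∃ K : ℕ, τ + x₀ + 1 < 2 ^ K := ⟨τ + x₀ + 1, Nat.lt_two_pow_self⟩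
    set t := 2 ^ K - 1 with ht
    have ht0 : 0 < t := by omega
    have h1 := hout (120 * t + 93) (t - 1) (t + τ - 1) (by omega)
      (by
        rw [hval, Nat.cast_sub (by omega : 1 ≤ t)]
        push_cast
        ring)
      (by
        rw [hval, Nat.cast_sub (by omega : 1 ≤ t + τ), hτ]
        push_cast
        ring)
    have e : 120 * t + 93 + T = 120 * (t + τ) + 93 := by omega
    rw [e, hP t ht0, hP (t + τ) (by omega)] at h1
    have h2 : ¬ Even ((2 * t + 1).choose t) := odd_pow K
    have h3 : ¬ Even ((2 * (t + τ) + 1).choose (t + τ)) := fun h => h2 (h1.2 h)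
    obtain ⟨j, hj⟩ := pow_of_odd _ h3
    have h4 : 2 ^ K < 2 ^ j := by omega
    have h5 : 2 ^ j < 2 ^ (K + 1) := by
      rw [pow_succ]
      omega
    have h6 := (Nat.pow_lt_pow_iff_right (by norm_num : 1 < 2)).1 h4
    have h7 := (Nat.pow_lt_pow_iff_right (by norm_num : 1 < 2)).1 h5
    omega

end Pool.Agent.Results.MP_1f0dde_co.AperiodicRuleset
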